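import Mathlib

set_option autoImplicit false

open Filter Topology

namespace Pool.Agent.Work.MP_997748_an

/-- ultralimit of a real sequence along the hyperfilter on `ℕ` -/
noncomputable def ulim (s : ℕ → ℝ) : ℝ := limUnder (hyperfilter ℕ : Filter ℕ) s

lemma ulim_tendsto {s : ℕ → ℝ} {C : ℝ} (h : ∀ n, |s n| ≤ C) :
    Tendsto s (hyperfilter ℕ : Filter ℕ) (𝓝 (ulim s)) := by
  have hc : IsCompact (Set.Icc (-C) C) := isCompact_Icc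
  have hle : ((hyperfilter ℕ).map s : Filter ℝ) ≤ 𝓟 (Set.Icc (-C) C) := by
    rw [le_principal_iff]
    refine mem_map.2 (Filter.mem_of_superset univ_mem ?_)
    intro n _
    exact abs_le.1 (h n)
  obtain ⟨x, _, hx⟩ := hc.ultrafilter_le_nhds ((hyperfilter ℕ).map s) hle
  exact tendsto_nhds_limUnder ⟨x, hx⟩

lemma ulim_eq_of_tendsto {s : ℕ → ℝ} {x : ℝ} (h : Tendsto s (hyperfilter ℕ : Filter ℕ) (𝓝 x)) :
    ulim s = x := h.limUnder_eq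

lemma ulim_eq_of_tendsto_atTop {s : ℕ → ℝ} {x : ℝ} (h : Tendsto s atTop (𝓝 x)) :
    ulim s = x :=
  ulim_eq_of_tendsto (h.mono_left (Nat.hyperfilter_le_atTop))

lemma ulim_const (c : ℝ) : ulim (fun _ => c) = c :=
  ulim_eq_of_tendsto tendsto_const_nhds

lemma ulim_add {s t : ℕ → ℝ} {C D : ℝ} (hs : ∀ n, |s n| ≤ C) (ht : ∀ n, |t n| ≤ D) :
    ulim (fun n => s n + t n) = ulim s + ulim t :=
  ulim_eq_of_tendsto ((ulim_tendsto hs).add (ulim_tendsto ht))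

lemma ulim_sub {s t : ℕ → ℝ} {C D : ℝ} (hs : ∀ n, |s n| ≤ C) (ht : ∀ n, |t n| ≤ D) :
    ulim (fun n => s n - t n) = ulim s - ulim t :=
  ulim_eq_of_tendsto ((ulim_tendsto hs).sub (ulim_tendsto ht))

lemma ulim_mul_left {s : ℕ → ℝ} {C : ℝ} (c : ℝ) (hs : ∀ n, |s n| ≤ C) :
    ulim (fun n => c * s n) = c * ulim s :=
  ulim_eq_of_tendsto ((ulim_tendsto hs).const_mul c)

lemma ulim_mono {s t : ℕ → ℝ} {C D : ℝ} (hs : ∀ n, |s n| ≤ C) (ht : ∀ n, |t n| ≤ D)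
    (hst : ∀ n, s n ≤ t n) : ulim s ≤ ulim t :=
  le_of_tendsto_of_tendsto' (ulim_tendsto hs) (ulim_tendsto ht) hst

lemma abs_ulim_le {s : ℕ → ℝ} {C : ℝ} (hs : ∀ n, |s n| ≤ C) : |ulim s| ≤ C :=
  le_of_tendsto' (ulim_tendsto hs).abs hs

lemma ulim_nonneg {s : ℕ → ℝ} {C : ℝ} (hs : ∀ n, |s n| ≤ C) (h0 : ∀ n, 0 ≤ s n) : 0 ≤ ulim s :=
  ge_of_tendsto' (ulim_tendsto hs) h0

end Pool.Agent.Work.MP_997748_an
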