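import Mathlib
import Pool.Agent.Work.MP_997748_an.Ulim

set_option autoImplicit false

open Filter Topology

namespace Pool.Agent.Work.MP_997748_an

/-- the Cantor group -/
abbrev G := ℕ → ZMod 2

/-- truncation of an element of the Cantor group -/
def tr (n : ℕ) (x : G) : G := fun i => if i < n then x i else 0

/-- extension by zero -/
def emb (m : ℕ) (s : Fin m → ZMod 2) : G := fun i => if h : i < m then s ⟨i, h⟩ else 0

/-- restriction to the first coordinates -/
def res (m : ℕ) (x : G) : Fin m → ZMod 2 := fun i => x i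

lemma tr_eq (n : ℕ) (x : G) : tr n x = emb n (res n x) := by
  funext i
  simp only [tr, emb, res]
  split_ifs <;> rfl

lemma tr_emb_res (n : ℕ) (s : Fin n → ZMod 2) : tr n (emb n s) = emb n s := by
  funext i
  simp only [tr, emb]
  split_ifs <;> rfl

lemma exists_pi : ∃ π : ℕ → G, ∀ (n : ℕ) (s : Fin n → ZMod 2), emb n s ∈ Set.range π := by
  have hc : (⋃ n : ℕ, Set.range (emb n)).Countable := by
    refine Set.countable_iUnion fun n => ?_
    exact (Set.finite_range _).countable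
  have hne : (⋃ n : ℕ, Set.range (emb n)).Nonempty := ⟨emb 0 0, Set.mem_iUnion.2 ⟨0, ⟨0, rfl⟩⟩⟩
  obtain ⟨f, hf⟩ := hc.exists_eq_range hne
  refine ⟨f, fun n s => ?_⟩
  rw [← hf]
  exact Set.mem_iUnion.2 ⟨n, ⟨s, rfl⟩⟩

/-- a sequence exhausting the finitely supported elements -/
noncomputable def pi : ℕ → G := exists_pi.choose

/-- a section of `pi` -/
noncomputable def sec : G → ℕ := Function.invFun pi

lemma pi_sec_emb (n : ℕ) (s : Fin n → ZMod 2) : pi (sec (emb n s)) = emb n s := by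
  obtain ⟨a, ha⟩ := exists_pi.choose_spec n s
  exact Function.invFun_eq ⟨a, ha⟩

lemma pi_sec_tr (n : ℕ) (x : G) : pi (sec (tr n x)) = tr n x := by
  rw [tr_eq]; exact pi_sec_emb _ _

/-- averages over the `m`-th finite subgroup -/
noncomputable def avg (m : ℕ) (u : ℕ → ℝ) : ℝ :=
  ((2 : ℝ) ^ m)⁻¹ * ∑ s : Fin m → ZMod 2, u (sec (emb m s))

lemma card_fun (m : ℕ) : ((Finset.univ : Finset (Fin m → ZMod 2)).card : ℝ) = 2 ^ m := by
  rw [Finset.card_univ, Fintype.card_fun, ZMod.card, Fintype.card_fin]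
  norm_num

lemma abs_avg_le {m : ℕ} {u : ℕ → ℝ} {C : ℝ} (h : ∀ s : Fin m → ZMod 2, |u (sec (emb m s))| ≤ C) :
    |avg m u| ≤ C := by
  unfold avg
  rw [abs_mul, abs_of_pos (by positivity : (0 : ℝ) < ((2 : ℝ) ^ m)⁻¹)]
  have h1 : |∑ s : Fin m → ZMod 2, u (sec (emb m s))| ≤ 2 ^ m * C := by
    calc |∑ s : Fin m → ZMod 2, u (sec (emb m s))|
        ≤ ∑ s : Fin m → ZMod 2, |u (sec (emb m s))| := Finset.abs_sum_le_sum_abs _ _
      _ ≤ ∑ _s : Fin m → ZMod 2, C := Finset.sum_le_sum fun s _ => h s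
      _ = 2 ^ m * C := by rw [Finset.sum_const, nsmul_eq_mul, card_fun]
  rw [inv_mul_le_iff₀ (by positivity)]
  exact h1

lemma avg_add (m : ℕ) (u v : ℕ → ℝ) : avg m (fun a => u a + v a) = avg m u + avg m v := by
  unfold avg; rw [Finset.sum_add_distrib, mul_add]

lemma avg_sub (m : ℕ) (u v : ℕ → ℝ) : avg m (fun a => u a - v a) = avg m u - avg m v := by
  unfold avg; rw [Finset.sum_sub_distrib, mul_sub]

lemma avg_mul_left (m : ℕ) (c : ℝ) (u : ℕ → ℝ) : avg m (fun a => c * u a) = c * avg m u := by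
  unfold avg; rw [← Finset.mul_sum]; ring

lemma avg_mono {m : ℕ} {u v : ℕ → ℝ} (h : ∀ a, u a ≤ v a) : avg m u ≤ avg m v := by
  unfold avg
  exact mul_le_mul_of_nonneg_left (Finset.sum_le_sum fun s _ => h _) (by positivity)

lemma avg_nonneg {m : ℕ} {u : ℕ → ℝ} (h : ∀ a, 0 ≤ u a) : 0 ≤ avg m u := by
  unfold avg
  exact mul_nonneg (by positivity) (Finset.sum_nonneg fun s _ => h _)

/-- the mean -/
noncomputable def La (u : ℕ → ℝ) : ℝ := ulim fun m => avg m u

lemma avg_const (m : ℕ) (c : ℝ) : avg m (fun _ => c) = c := by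
  unfold avg
  have : ∑ _s : Fin m → ZMod 2, c = 2 ^ m * c := by
    rw [Finset.sum_const, nsmul_eq_mul, card_fun]
  rw [this]
  field_simp

lemma La_const (c : ℝ) : La (fun _ => c) = c := by
  unfold La
  simp only [avg_const]
  exact ulim_const c

lemma abs_La_le {u : ℕ → ℝ} {C : ℝ} (h : ∀ a, |u a| ≤ C) : |La u| ≤ C :=
  abs_ulim_le fun _ => abs_avg_le fun _ => h _

lemma La_add {u v : ℕ → ℝ} {C D : ℝ} (hu : ∀ a, |u a| ≤ C) (hv : ∀ a, |v a| ≤ D) :
    La (fun a => u a + v a) = La u + La v := by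
  unfold La
  simp only [avg_add]
  exact ulim_add (fun _ => abs_avg_le fun _ => hu _) (fun _ => abs_avg_le fun _ => hv _)

lemma La_sub {u v : ℕ → ℝ} {C D : ℝ} (hu : ∀ a, |u a| ≤ C) (hv : ∀ a, |v a| ≤ D) :
    La (fun a => u a - v a) = La u - La v := by
  unfold La
  simp only [avg_sub]
  exact ulim_sub (fun _ => abs_avg_le fun _ => hu _) (fun _ => abs_avg_le fun _ => hv _)

lemma La_mul_left {u : ℕ → ℝ} {C : ℝ} (c : ℝ) (hu : ∀ a, |u a| ≤ C) :
    La (fun a => c * u a) = c * La u := by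
  unfold La
  simp only [avg_mul_left]
  exact ulim_mul_left c (fun _ => abs_avg_le fun _ => hu _)

lemma La_nonneg {u : ℕ → ℝ} {C : ℝ} (hu : ∀ a, |u a| ≤ C) (h : ∀ a, 0 ≤ u a) : 0 ≤ La u :=
  ulim_nonneg (fun _ => abs_avg_le fun _ => hu _) (fun _ => avg_nonneg h)

/-- translates of a continuous function, as a continuous map to `C(G, ℝ)` -/
noncomputable def shift (f : C(G, ℝ)) : C(G, C(G, ℝ)) :=
  ContinuousMap.curry ⟨fun p : G × G => f (p.2 + p.1), by fun_prop⟩

lemma shift_apply (f : C(G, ℝ)) (k x : G) : shift f k x = f (x + k) := rfl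

lemma shift_zero (f : C(G, ℝ)) : shift f 0 = f := by
  ext x; rw [shift_apply, add_zero]

lemma norm_shift_le (f : C(G, ℝ)) (k : G) : ‖shift f k‖ ≤ ‖f‖ := by
  rw [ContinuousMap.norm_le _ (norm_nonneg _)]
  intro x
  rw [shift_apply]; exact f.norm_coe_le_norm _

lemma eventually_shift (f : C(G, ℝ)) {ε : ℝ} (hε : 0 < ε) :
    ∀ᶠ k in 𝓝 (0 : G), ‖shift f k - f‖ < ε := by
  have h := (shift f).continuous.tendsto 0
  rw [shift_zero] at h
  have := (Metric.tendsto_nhds.1 h) ε hε
  filter_upwards [this] with k hk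
  rwa [dist_eq_norm] at hk

lemma abs_apply_le (f : C(G, ℝ)) (x : G) : |f x| ≤ ‖f‖ := by
  have := f.norm_coe_le_norm x
  rwa [Real.norm_eq_abs] at this

lemma tendsto_sub_tr (k : G) : Tendsto (fun m => k - tr m k) atTop (𝓝 0) := by
  rw [tendsto_pi_nhds]
  intro i
  refine tendsto_const_nhds.congr' ?_
  filter_upwards [eventually_gt_atTop i] with m hm
  simp [tr, hm]

lemma avg_pi (m : ℕ) (f : G → ℝ) :
    avg m (fun a => f (pi a)) = ((2 : ℝ) ^ m)⁻¹ * ∑ s : Fin m → ZMod 2, f (emb m s) := by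
  unfold avg
  simp only [pi_sec_emb]

lemma emb_add (m : ℕ) (s t : Fin m → ZMod 2) : emb m (s + t) = emb m s + emb m t := by
  funext i
  simp only [emb, Pi.add_apply]
  split_ifs <;> simp

lemma avg_translate (m : ℕ) (f : G → ℝ) (k : G) :
    avg m (fun a => f (pi a + k)) = avg m (fun a => f (pi a + (k - tr m k))) := by
  rw [avg_pi m (fun x => f (x + k)), avg_pi m (fun x => f (x + (k - tr m k)))]
  congr 1
  rw [← Equiv.sum_comp (Equiv.addRight (res m k)) (fun s => f (emb m s + (k - tr m k)))]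
  refine Finset.sum_congr rfl fun s _ => ?_
  simp only [Equiv.coe_addRight, emb_add, ← tr_eq]
  congr 1
  abel

/-- translation invariance of the mean on continuous functions on `G` -/
lemma La_shift (f : C(G, ℝ)) (k : G) : La (fun a => shift f k (pi a)) = La (fun a => f (pi a)) := by
  have hb : ∀ a, |f (pi a)| ≤ ‖f‖ := fun a => abs_apply_le f _
  have h1 : Tendsto (fun m => avg m (fun a => shift f k (pi a)) - avg m (fun a => f (pi a)))
      atTop (𝓝 0) := by
    have h2 : Tendsto (fun m => ‖shift f (k - tr m k) - f‖) atTop (𝓝 0) := by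
      rw [Metric.tendsto_nhds]
      intro ε hε
      filter_upwards [(tendsto_sub_tr k).eventually (eventually_shift f hε)] with m hm
      rw [Real.dist_eq, sub_zero, abs_of_nonneg (norm_nonneg _)]
      exact hm
    refine squeeze_zero_norm (fun m => ?_) h2
    have e1 : avg m (fun a => shift f k (pi a)) = avg m (fun a => shift f (k - tr m k) (pi a)) := by
      simp only [shift_apply]
      exact avg_translate m f k
    rw [e1, ← avg_sub, Real.norm_eq_abs]
    refine abs_avg_le fun s => ?_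
    exact abs_apply_le (shift f (k - tr m k) - f) _
  have h3 := ulim_eq_of_tendsto_atTop h1
  rw [ulim_sub (C := ‖shift f k‖) (D := ‖f‖) (fun _ => abs_avg_le fun _ => abs_apply_le _ _)
    (fun _ => abs_avg_le fun _ => abs_apply_le _ _)] at h3
  unfold La
  linarith

end Pool.Agent.Work.MP_997748_an
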