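import Mathlib
import Pool.Agent.Work.MP_997748_an.Avg

set_option autoImplicit false

open Filter Topology

namespace Pool.Agent.Work.MP_997748_an

lemma abs_mul_le' {a b C D : ℝ} (ha : |a| ≤ C) (hb : |b| ≤ D) : |a * b| ≤ C * D := by
  rw [abs_mul]
  exact mul_le_mul ha hb (abs_nonneg _) ((abs_nonneg _).trans ha)

/-- approximation of a bounded function, in the weak sense against `C(G)`, by a continuous one -/
lemma exists_approx (v : ℕ → ℝ) (C : ℝ) (hv : ∀ a, |v a| ≤ C) {ε : ℝ} (hε : 0 < ε) :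
    ∃ w : C(G, ℝ), ∀ f : C(G, ℝ), |La (fun a => f (pi a) * (v a - w (pi a)))| ≤ ε * ‖f‖ := by
  have hC : 0 ≤ C := (abs_nonneg _).trans (hv 0)
  let Q : C(G, ℝ) → ℝ := fun w => La (fun a => (v a - w (pi a)) * (v a - w (pi a)))
  have hbd : ∀ (w : C(G, ℝ)) a, |v a - w (pi a)| ≤ C + ‖w‖ := fun w a =>
    (abs_sub _ _).trans (add_le_add (hv a) (abs_apply_le _ _))
  have hQ0 : ∀ w, 0 ≤ Q w := fun w =>
    La_nonneg (fun a => abs_mul_le' (hbd w a) (hbd w a)) (fun a => mul_self_nonneg _)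
  have hbdd : BddBelow (Set.range Q) := ⟨0, by rintro _ ⟨w, rfl⟩; exact hQ0 w⟩
  have hne : (Set.range Q).Nonempty := ⟨Q 0, ⟨0, rfl⟩⟩
  obtain ⟨_, ⟨w, rfl⟩, hw⟩ := exists_lt_of_csInf_lt hne
    (lt_add_of_pos_right (sInf (Set.range Q)) (by positivity : 0 < ε ^ 2))
  refine ⟨w, fun f => ?_⟩
  set b := La (fun a => f (pi a) * (v a - w (pi a))) with hb
  have key : ∀ t : ℝ, 2 * t * b ≤ ε ^ 2 + t ^ 2 * ‖f‖ ^ 2 := by
    intro t
    have h1 : sInf (Set.range Q) ≤ Q (w + t • f) := csInf_le hbdd ⟨_, rfl⟩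
    have hff : La (fun a => f (pi a) * f (pi a)) ≤ ‖f‖ ^ 2 := by
      have := abs_La_le (u := fun a => f (pi a) * f (pi a)) (C := ‖f‖ ^ 2) (fun a => by
        rw [pow_two]; exact abs_mul_le' (abs_apply_le _ _) (abs_apply_le _ _))
      exact (le_abs_self _).trans this
    have h2 : Q (w + t • f) = Q w - 2 * t * b + t ^ 2 * La (fun a => f (pi a) * f (pi a)) := by
      have e : (fun a => (v a - (w + t • f) (pi a)) * (v a - (w + t • f) (pi a))) =
          (fun a => ((v a - w (pi a)) * (v a - w (pi a)) - (2 * t) * (f (pi a) * (v a - w (pi a))))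
            + t ^ 2 * (f (pi a) * f (pi a))) := by
        funext a
        simp only [ContinuousMap.add_apply, ContinuousMap.smul_apply, smul_eq_mul]
        ring
      have b1 : ∀ a, |(v a - w (pi a)) * (v a - w (pi a))| ≤ (C + ‖w‖) * (C + ‖w‖) :=
        fun a => abs_mul_le' (hbd w a) (hbd w a)
      have b2 : ∀ a, |f (pi a) * (v a - w (pi a))| ≤ ‖f‖ * (C + ‖w‖) :=
        fun a => abs_mul_le' (abs_apply_le _ _) (hbd w a)
      have b2' : ∀ a, |(2 * t) * (f (pi a) * (v a - w (pi a)))| ≤ |2 * t| * (‖f‖ * (C + ‖w‖)) :=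
        fun a => abs_mul_le' le_rfl (b2 a)
      have b3 : ∀ a, |f (pi a) * f (pi a)| ≤ ‖f‖ * ‖f‖ :=
        fun a => abs_mul_le' (abs_apply_le _ _) (abs_apply_le _ _)
      have b3' : ∀ a, |t ^ 2 * (f (pi a) * f (pi a))| ≤ |t ^ 2| * (‖f‖ * ‖f‖) :=
        fun a => abs_mul_le' le_rfl (b3 a)
      show La _ = La _ - _ + _
      rw [e, La_add (C := (C + ‖w‖) * (C + ‖w‖) + |2 * t| * (‖f‖ * (C + ‖w‖)))
        (fun a => (abs_sub _ _).trans (add_le_add (b1 a) (b2' a))) b3', La_sub b1 b2',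
        La_mul_left _ b2, La_mul_left _ b3]
    have h3 : t ^ 2 * La (fun a => f (pi a) * f (pi a)) ≤ t ^ 2 * ‖f‖ ^ 2 :=
      mul_le_mul_of_nonneg_left hff (sq_nonneg t)
    linarith
  by_cases hf : ‖f‖ = 0
  · have hf0 : f = 0 := norm_eq_zero.1 hf
    have : b = 0 := by
      rw [hb, hf0]
      simp only [ContinuousMap.zero_apply, zero_mul]
      have := abs_La_le (u := fun _ => (0 : ℝ)) (C := 0) (fun a => by simp)
      exact abs_eq_zero.1 (le_antisymm this (abs_nonneg _))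
    rw [this, hf]; simp
  · have hfp : 0 < ‖f‖ := lt_of_le_of_ne (norm_nonneg _) (Ne.symm hf)
    have h1 := key (b / ‖f‖ ^ 2)
    have h2 : b ^ 2 ≤ (ε * ‖f‖) ^ 2 := by
      have e1 : 2 * (b / ‖f‖ ^ 2) * b = 2 * (b ^ 2 / ‖f‖ ^ 2) := by ring
      have e2 : (b / ‖f‖ ^ 2) ^ 2 * ‖f‖ ^ 2 = b ^ 2 / ‖f‖ ^ 2 := by
        field_simp
      rw [e1, e2] at h1
      have h3 : b ^ 2 / ‖f‖ ^ 2 ≤ ε ^ 2 := by linarith
      rw [div_le_iff₀ (by positivity)] at h3
      rw [mul_pow]; exact h3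
    have h4 := abs_le_of_sq_le_sq h2 (by positivity)
    exact h4

/-- equicontinuity -/
lemma exists_nhds_equi (v : ℕ → ℝ) (C : ℝ) (hv : ∀ a, |v a| ≤ C) {ε : ℝ} (hε : 0 < ε) :
    ∀ᶠ k in 𝓝 (0 : G), ∀ f : C(G, ℝ),
      |La (fun a => (shift f k (pi a) - f (pi a)) * v a)| ≤ ε * ‖f‖ := by
  obtain ⟨w, hw⟩ := exists_approx v C hv (by positivity : 0 < ε / 4)
  have hneg : Tendsto (fun k : G => -k) (𝓝 0) (𝓝 0) := by
    have := (continuous_neg (G := G)).tendsto 0
    rwa [neg_zero] at this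
  filter_upwards [hneg.eventually (eventually_shift w (by positivity : 0 < ε / 2))] with k hk f
  have hbd : ∀ a, |v a - w (pi a)| ≤ C + ‖w‖ := fun a =>
    (abs_sub _ _).trans (add_le_add (hv a) (abs_apply_le _ _))
  -- decomposition
  have e : (fun a => (shift f k (pi a) - f (pi a)) * v a) =
      (fun a => (shift f k - f) (pi a) * (v a - w (pi a)) +
        (shift (f * shift w (-k)) k (pi a) - (f * w) (pi a))) := by
    funext a
    simp only [ContinuousMap.sub_apply, ContinuousMap.mul_apply, shift_apply]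
    have : pi a + k + -k = pi a := by abel
    rw [this]
    ring
  have b1 : ∀ a, |(shift f k - f) (pi a) * (v a - w (pi a))| ≤ ‖shift f k - f‖ * (C + ‖w‖) :=
    fun a => abs_mul_le' (abs_apply_le _ _) (hbd a)
  have b2 : ∀ a, |shift (f * shift w (-k)) k (pi a)| ≤ ‖shift (f * shift w (-k)) k‖ :=
    fun a => abs_apply_le _ _
  have b3 : ∀ a, |(f * w) (pi a)| ≤ ‖f * w‖ := fun a => abs_apply_le _ _
  rw [e, La_add b1 (D := ‖shift (f * shift w (-k)) k‖ + ‖f * w‖)
    (fun a => (abs_sub _ _).trans (add_le_add (b2 a) (b3 a))), La_sub b2 b3, La_shift,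
    ← La_sub (C := ‖f * shift w (-k)‖) (D := ‖f * w‖) (fun a => abs_apply_le _ _) b3]
  have h1 : |La (fun a => (shift f k - f) (pi a) * (v a - w (pi a)))| ≤ ε / 2 * ‖f‖ := by
    refine (hw (shift f k - f)).trans ?_
    have : ‖shift f k - f‖ ≤ ‖f‖ + ‖f‖ := (norm_sub_le _ _).trans (add_le_add_left (norm_shift_le f k) _)
    calc ε / 4 * ‖shift f k - f‖ ≤ ε / 4 * (‖f‖ + ‖f‖) :=
          mul_le_mul_of_nonneg_left this (by positivity)
      _ = ε / 2 * ‖f‖ := by ring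
  have h2 : |La (fun a => (f * shift w (-k)) (pi a) - (f * w) (pi a))| ≤ ε / 2 * ‖f‖ := by
    refine abs_La_le fun a => ?_
    have : (f * shift w (-k)) (pi a) - (f * w) (pi a) = (shift w (-k) - w) (pi a) * f (pi a) := by
      simp only [ContinuousMap.sub_apply, ContinuousMap.mul_apply]; ring
    rw [this]
    refine (abs_mul_le' (abs_apply_le _ _) (abs_apply_le _ _)).trans ?_
    exact mul_le_mul_of_nonneg_right hk.le (norm_nonneg _)
  calc |La (fun a => (shift f k - f) (pi a) * (v a - w (pi a))) +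
        La (fun a => (f * shift w (-k)) (pi a) - (f * w) (pi a))|
      ≤ ε / 2 * ‖f‖ + ε / 2 * ‖f‖ := (abs_add_le _ _).trans (add_le_add h1 h2)
    _ = ε * ‖f‖ := by ring

end Pool.Agent.Work.MP_997748_an
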