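import Mathlib
import Pool.Agent.Work.MP_997748_an.Equi

set_option autoImplicit false

open Filter Topology

namespace Pool.Agent.Work.MP_997748_an

/-- the inner mean -/
noncomputable def Hf (F : ℕ → ℕ → ℝ) (n : ℕ) (g : G) : ℝ :=
  La (fun y => F (sec (tr n (pi y + g))) y)

/-- the iterated mean -/
noncomputable def Pf (F : ℕ → ℕ → ℝ) (g : G) : ℝ := ulim (fun n => Hf F n g)

lemma abs_Hf_le {F : ℕ → ℕ → ℝ} {C : ℝ} (h : ∀ a b, |F a b| ≤ C) (n : ℕ) (g : G) :
    |Hf F n g| ≤ C := abs_La_le fun _ => h _ _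

lemma abs_Pf_le {F : ℕ → ℕ → ℝ} {C : ℝ} (h : ∀ a b, |F a b| ≤ C) (g : G) :
    |Pf F g| ≤ C := abs_ulim_le fun _ => abs_Hf_le h _ _

lemma Hf_add {F K : ℕ → ℕ → ℝ} {C D : ℝ} (hF : ∀ a b, |F a b| ≤ C) (hK : ∀ a b, |K a b| ≤ D)
    (n : ℕ) (g : G) : Hf (fun a b => F a b + K a b) n g = Hf F n g + Hf K n g :=
  La_add (fun _ => hF _ _) (fun _ => hK _ _)

lemma Hf_sub {F K : ℕ → ℕ → ℝ} {C D : ℝ} (hF : ∀ a b, |F a b| ≤ C) (hK : ∀ a b, |K a b| ≤ D)
    (n : ℕ) (g : G) : Hf (fun a b => F a b - K a b) n g = Hf F n g - Hf K n g :=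
  La_sub (fun _ => hF _ _) (fun _ => hK _ _)

lemma Hf_mul_left {F : ℕ → ℕ → ℝ} {C : ℝ} (c : ℝ) (hF : ∀ a b, |F a b| ≤ C)
    (n : ℕ) (g : G) : Hf (fun a b => c * F a b) n g = c * Hf F n g :=
  La_mul_left c (fun _ => hF _ _)

lemma Pf_add {F K : ℕ → ℕ → ℝ} {C D : ℝ} (hF : ∀ a b, |F a b| ≤ C) (hK : ∀ a b, |K a b| ≤ D)
    (g : G) : Pf (fun a b => F a b + K a b) g = Pf F g + Pf K g := by
  unfold Pf
  simp only [Hf_add hF hK]
  exact ulim_add (fun _ => abs_Hf_le hF _ _) (fun _ => abs_Hf_le hK _ _)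

lemma Pf_mul_left {F : ℕ → ℕ → ℝ} {C : ℝ} (c : ℝ) (hF : ∀ a b, |F a b| ≤ C)
    (g : G) : Pf (fun a b => c * F a b) g = c * Pf F g := by
  unfold Pf
  simp only [Hf_mul_left c hF]
  exact ulim_mul_left c (fun _ => abs_Hf_le hF _ _)

/-- equicontinuity of the inner means -/
def EQ (F : ℕ → ℕ → ℝ) : Prop :=
  ∀ ε > 0, ∀ᶠ k in 𝓝 (0 : G), ∀ n g, |Hf F n (g + k) - Hf F n g| ≤ ε

lemma continuous_loc (u : ℕ → ℝ) (n : ℕ) (g : G) :
    Continuous (fun x : G => u (sec (tr n (x + g)))) := by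
  have h1 : Continuous (fun x : G => res n (x + g)) := by
    unfold res; fun_prop
  have h2 : Continuous (fun s : Fin n → ZMod 2 => u (sec (emb n s))) := continuous_of_discreteTopology
  have : (fun x : G => u (sec (tr n (x + g)))) =
      (fun s : Fin n → ZMod 2 => u (sec (emb n s))) ∘ (fun x : G => res n (x + g)) := by
    funext x
    simp only [Function.comp, tr_eq]
  rw [this]
  exact h2.comp h1

lemma EQ_prod {u v : ℕ → ℝ} {C D : ℝ} (hu : ∀ a, |u a| ≤ C) (hv : ∀ a, |v a| ≤ D) :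
    EQ (fun a b => u a * v b) := by
  intro ε hε
  have hC : 0 ≤ C := (abs_nonneg _).trans (hu 0)
  have hδ : 0 < ε / (C + 1) := by positivity
  filter_upwards [exists_nhds_equi v D hv hδ] with k hk n g
  let f : C(G, ℝ) := ⟨fun x : G => u (sec (tr n (x + g))), continuous_loc u n g⟩
  have hf : ‖f‖ ≤ C := by
    rw [ContinuousMap.norm_le _ hC]
    intro x
    rw [Real.norm_eq_abs]
    exact hu _
  have hfa : ∀ x, f x = u (sec (tr n (x + g))) := fun x => rfl
  have e : Hf (fun a b => u a * v b) n (g + k) - Hf (fun a b => u a * v b) n g =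
      La (fun a => (shift f k (pi a) - f (pi a)) * v a) := by
    unfold Hf
    rw [← La_sub (C := C * D) (D := C * D) (fun y => abs_mul_le' (hu _) (hv _))
      (fun y => abs_mul_le' (hu _) (hv _))]
    congr 1
    funext a
    simp only [shift_apply, hfa]
    have : pi a + (g + k) = pi a + k + g := by abel
    rw [this]
    ring
  rw [e]
  refine (hk f).trans ?_
  calc ε / (C + 1) * ‖f‖ ≤ ε / (C + 1) * C := mul_le_mul_of_nonneg_left hf hδ.le
    _ ≤ ε / (C + 1) * (C + 1) := mul_le_mul_of_nonneg_left (by linarith) hδ.le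
    _ = ε := by field_simp

lemma EQ_add {F K : ℕ → ℕ → ℝ} {C D : ℝ} (hF : ∀ a b, |F a b| ≤ C) (hK : ∀ a b, |K a b| ≤ D)
    (h1 : EQ F) (h2 : EQ K) : EQ (fun a b => F a b + K a b) := by
  intro ε hε
  filter_upwards [h1 (ε / 2) (by positivity), h2 (ε / 2) (by positivity)] with k hk1 hk2 n g
  rw [Hf_add hF hK, Hf_add hF hK]
  have : Hf F n (g + k) + Hf K n (g + k) - (Hf F n g + Hf K n g) =
    (Hf F n (g + k) - Hf F n g) + (Hf K n (g + k) - Hf K n g) := by ring
  rw [this]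
  calc _ ≤ ε / 2 + ε / 2 := (abs_add_le _ _).trans (add_le_add (hk1 n g) (hk2 n g))
    _ = ε := by ring

lemma EQ_sum {ι : Type*} (s : Finset ι) (u v : ι → ℕ → ℝ) (C D : ι → ℝ)
    (hu : ∀ i a, |u i a| ≤ C i) (hv : ∀ i a, |v i a| ≤ D i) :
    EQ (fun a b => ∑ i ∈ s, u i a * v i b) := by
  classical
  induction s using Finset.induction_on with
  | empty =>
    simp only [Finset.sum_empty]
    have := EQ_prod (u := fun _ => 0) (v := fun _ => 0) (C := 0) (D := 0) (by simp) (by simp)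
    simpa using this
  | insert i s hi ih =>
    simp only [Finset.sum_insert hi]
    refine EQ_add (C := C i * D i) (D := ∑ j ∈ s, C j * D j)
      (fun a b => abs_mul_le' (hu i a) (hv i b)) (fun a b => ?_) (EQ_prod (hu i) (hv i)) ih
    exact (Finset.abs_sum_le_sum_abs _ _).trans
      (Finset.sum_le_sum fun j _ => abs_mul_le' (hu j a) (hv j b))

lemma EQ_approx {F : ℕ → ℕ → ℝ} {C : ℝ} (hF : ∀ a b, |F a b| ≤ C)
    (h : ∀ ε > 0, ∃ K : ℕ → ℕ → ℝ, EQ K ∧ (∃ D, ∀ a b, |K a b| ≤ D) ∧ ∀ a b, |F a b - K a b| ≤ ε) :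
    EQ F := by
  intro ε hε
  obtain ⟨K, hK, ⟨D, hD⟩, hFK⟩ := h (ε / 3) (by positivity)
  filter_upwards [hK (ε / 3) (by positivity)] with k hk n g
  have h1 := abs_Hf_le hFK n (g + k)
  have h2 := abs_Hf_le hFK n g
  rw [Hf_sub hF hD] at h1 h2
  have h3 := hk n g
  rw [abs_le] at *
  constructor <;> linarith

lemma continuous_Pf {F : ℕ → ℕ → ℝ} {C : ℝ} (hF : ∀ a b, |F a b| ≤ C) (h : EQ F) :
    Continuous (Pf F) := by
  rw [continuous_iff_continuousAt]
  intro g
  rw [ContinuousAt, Metric.tendsto_nhds]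
  intro ε hε
  rw [← map_add_left_nhds_zero g, eventually_map]
  filter_upwards [h (ε / 2) (by positivity)] with k hk
  rw [Real.dist_eq]
  unfold Pf
  rw [← ulim_sub (fun n => abs_Hf_le hF n (g + k)) (fun n => abs_Hf_le hF n g)]
  calc |ulim fun n => Hf F n (g + k) - Hf F n g| ≤ ε / 2 := abs_ulim_le fun n => hk n g
    _ < ε := by linarith

lemma tendsto_sub_tr_unif :
    Tendsto (fun p : ℕ × G => -(p.2 - tr p.1 p.2)) (atTop ×ˢ ⊤) (𝓝 0) := by
  rw [tendsto_pi_nhds]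
  intro i
  refine tendsto_const_nhds.congr' ?_
  have : ∀ᶠ p : ℕ × G in atTop ×ˢ ⊤, i < p.1 :=
    (tendsto_fst (f := (atTop : Filter ℕ)) (g := (⊤ : Filter G))).eventually (eventually_gt_atTop i)
  filter_upwards [this] with p hp
  simp [tr, hp]

lemma add_self_G (x : G) : x + x = 0 := by
  funext i
  simp only [Pi.add_apply, Pi.zero_apply]
  exact CharTwo.add_self_eq_zero _

/-- the retraction property -/
lemma Pf_shift (f : C(G, ℝ)) (g : G) : Pf (fun a b => f (pi a + pi b)) g = f g := by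
  unfold Pf
  refine ulim_eq_of_tendsto_atTop ?_
  rw [Metric.tendsto_nhds]
  intro ε hε
  have h1 := tendsto_sub_tr_unif.eventually (eventually_shift f (half_pos hε))
  obtain ⟨pa, hpa, pb, hpb, hp⟩ := eventually_prod_iff.1 h1
  filter_upwards [hpa] with n hn
  rw [Real.dist_eq]
  have hb : ∀ y, |f (pi (sec (tr n (pi y + g))) + pi y)| ≤ ‖f‖ := fun y => abs_apply_le _ _
  have hc : ∀ y : ℕ, |f g| ≤ ‖f‖ := fun _ => abs_apply_le _ _
  have e1 : f g = La (fun _ => f g) := (La_const _).symm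
  rw [e1]
  unfold Hf
  rw [← La_sub hb hc]
  refine lt_of_le_of_lt (abs_La_le (C := ε / 2) fun y => ?_) (by linarith)
  rw [pi_sec_tr]
  have h2 := hp hn (y := pi y + g) (by
    rw [eventually_top] at hpb; exact hpb _)
  have h3 := abs_apply_le (shift f (-((pi y + g) - tr n (pi y + g))) - f) g
  rw [ContinuousMap.sub_apply, shift_apply] at h3
  have e2 : g + -((pi y + g) - tr n (pi y + g)) = tr n (pi y + g) + pi y := by
    have := add_self_G (pi y)
    calc g + -((pi y + g) - tr n (pi y + g)) = tr n (pi y + g) - pi y := by abel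
      _ = tr n (pi y + g) - pi y + (pi y + pi y) := by rw [this, add_zero]
      _ = tr n (pi y + g) + pi y := by abel
  rw [e2] at h3
  exact h3.trans h2.le

end Pool.Agent.Work.MP_997748_an
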