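import Mathlib
import Pool.Agent.Work.MP_997748_an.Proj

set_option autoImplicit false

open Filter Topology
open scoped BoundedContinuousFunction

namespace Pool.Agent.Work.MP_997748_an

/-- restriction of a function on `βℕ × βℕ` to `ℕ × ℕ` -/
noncomputable def rs (F : StoneCech ℕ × StoneCech ℕ →ᵇ ℝ) (a b : ℕ) : ℝ :=
  F (stoneCechUnit a, stoneCechUnit b)

lemma abs_rs_le (F : StoneCech ℕ × StoneCech ℕ →ᵇ ℝ) (a b : ℕ) : |rs F a b| ≤ ‖F‖ := by
  have := F.norm_coe_le_norm (stoneCechUnit a, stoneCechUnit b)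
  rwa [Real.norm_eq_abs] at this

instance : TotallyDisconnectedSpace (StoneCech ℕ) := by
  have : ExtremallyDisconnected (StoneCech ℕ) :=
    CompactT2.Projective.extremallyDisconnected StoneCech.projective
  infer_instance

lemma EQ_rs (F : StoneCech ℕ × StoneCech ℕ →ᵇ ℝ) : EQ (rs F) := by
  refine EQ_approx (abs_rs_le F) fun ε hε => ?_
  have hS : {p : ℝ × ℝ | dist p.1 p.2 < ε} ∈ uniformity ℝ := Metric.dist_mem_uniformity hε
  obtain ⟨n, g, h, hgh⟩ := ContinuousMap.exists_finite_sum_mul_approximation_of_mem_uniformity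
    F.toContinuousMap hS
  refine ⟨fun a b => ∑ i, g i (stoneCechUnit a) * h i (stoneCechUnit b), ?_, ?_, ?_⟩
  · exact EQ_sum Finset.univ (fun i a => g i (stoneCechUnit a)) (fun i b => h i (stoneCechUnit b))
      (fun i => ‖g i‖) (fun i => ‖h i‖) (fun i a => by
        have := (g i).norm_coe_le_norm (stoneCechUnit a)
        rwa [Real.norm_eq_abs] at this) (fun i a => by
        have := (h i).norm_coe_le_norm (stoneCechUnit a)
        rwa [Real.norm_eq_abs] at this)
  · refine ⟨∑ i, ‖g i‖ * ‖h i‖, fun a b => ?_⟩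
    refine (Finset.abs_sum_le_sum_abs _ _).trans (Finset.sum_le_sum fun i _ => ?_)
    refine abs_mul_le' ?_ ?_
    · have := (g i).norm_coe_le_norm (stoneCechUnit a)
      rwa [Real.norm_eq_abs] at this
    · have := (h i).norm_coe_le_norm (stoneCechUnit b)
      rwa [Real.norm_eq_abs] at this
  · intro a b
    have := hgh (stoneCechUnit a) (stoneCechUnit b)
    rw [Set.mem_ofPred_eq, Real.dist_eq] at this
    exact this.le

/-- continuous extension of `pi` -/
noncomputable def piX : StoneCech ℕ → G :=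
  stoneCechExtend (continuous_of_discreteTopology : Continuous pi)

lemma continuous_piX : Continuous piX := continuous_stoneCechExtend _

lemma piX_unit (a : ℕ) : piX (stoneCechUnit a) = pi a := stoneCechExtend_stoneCechUnit _ a

theorem exists_complemented {L : Type*} [TopologicalSpace L] (ι : L → G) (hι : Continuous ι)
    (r : G → L) (hr : Continuous r) (hri : ∀ l, r (ι l) = l) :
    ∃ (T : (L →ᵇ ℝ) →L[ℝ] (StoneCech ℕ × StoneCech ℕ →ᵇ ℝ))
      (P : (StoneCech ℕ × StoneCech ℕ →ᵇ ℝ) →L[ℝ] (L →ᵇ ℝ)),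
      P.comp T = ContinuousLinearMap.id ℝ _ := by
  let φ : C(StoneCech ℕ × StoneCech ℕ, L) :=
    ⟨fun p => r (piX p.1 + piX p.2), hr.comp ((continuous_piX.comp continuous_fst).add
      (continuous_piX.comp continuous_snd))⟩
  let T0 : (L →ᵇ ℝ) →ₗ[ℝ] (StoneCech ℕ × StoneCech ℕ →ᵇ ℝ) :=
    { toFun := fun f => f.compContinuous φ
      map_add' := fun f g => by ext x; rfl
      map_smul' := fun c f => by ext x; rfl }
  let T : (L →ᵇ ℝ) →L[ℝ] (StoneCech ℕ × StoneCech ℕ →ᵇ ℝ) :=
    T0.mkContinuous 1 (fun f => by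
      rw [one_mul, BoundedContinuousFunction.norm_le (norm_nonneg _)]
      intro x
      exact f.norm_coe_le_norm _)
  let P0 : (StoneCech ℕ × StoneCech ℕ →ᵇ ℝ) →ₗ[ℝ] (L →ᵇ ℝ) :=
    { toFun := fun F => BoundedContinuousFunction.ofNormedAddCommGroup (fun l => Pf (rs F) (ι l))
        ((continuous_Pf (abs_rs_le F) (EQ_rs F)).comp hι) ‖F‖
        (fun l => by rw [Real.norm_eq_abs]; exact abs_Pf_le (abs_rs_le F) _)
      map_add' := fun F K => by
        ext l
        exact Pf_add (abs_rs_le F) (abs_rs_le K) _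
      map_smul' := fun c F => by
        ext l
        exact Pf_mul_left c (abs_rs_le F) _ }
  let P : (StoneCech ℕ × StoneCech ℕ →ᵇ ℝ) →L[ℝ] (L →ᵇ ℝ) :=
    P0.mkContinuous 1 (fun F => by
      rw [one_mul, BoundedContinuousFunction.norm_le (norm_nonneg _)]
      intro l
      show ‖Pf (rs F) (ι l)‖ ≤ ‖F‖
      rw [Real.norm_eq_abs]
      exact abs_Pf_le (abs_rs_le F) _)
  refine ⟨T, P, ?_⟩
  ext f l
  show Pf (rs (f.compContinuous φ)) (ι l) = f l
  have hfr : Continuous (fun x => f (r x)) := f.continuous.comp hr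
  have e : rs (f.compContinuous φ) =
      fun a b => (⟨fun x => f (r x), hfr⟩ : C(G, ℝ)) (pi a + pi b) := by
    funext a b
    show f (r (piX (stoneCechUnit a) + piX (stoneCechUnit b))) = f (r (pi a + pi b))
    rw [piX_unit, piX_unit]
  rw [e, Pf_shift]
  show f (r (ι l)) = f l
  rw [hri]

/-- embedding of a countable compact ordinal interval in the Cantor group, with retraction -/
theorem exists_embedding (o : Ordinal.{0}) (ho : o.card ≤ Cardinal.aleph0) :
    ∃ (ι : ↥(Set.Iic o) → G) (r : G → ↥(Set.Iic o)),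
      Continuous ι ∧ Continuous r ∧ ∀ l, r (ι l) = l := by
  have hcount : Countable ↥(Set.Iic o) := by
    have h1 : (Set.Iic o : Set Ordinal.{0}) = Set.Iio (Order.succ o) := by
      ext x; simp
    rw [h1, ← Cardinal.mk_le_aleph0_iff, Cardinal.mk_Iio_ordinal, Cardinal.lift_le_aleph0,
      Order.succ_eq_add_one, Ordinal.card_add_one]
    exact (Cardinal.add_le_aleph0.2 ⟨ho, Cardinal.one_le_aleph0⟩)
  have hne : Nonempty ↥(Set.Iic o) := ⟨⟨o, Set.mem_Iic.2 le_rfl⟩⟩
  obtain ⟨q, hq⟩ := exists_surjective_nat ↥(Set.Iic o)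
  have hcomp : CompactSpace ↥(Set.Iic o) := by
    rw [← isCompact_iff_compactSpace]
    have : (Set.Iic o : Set Ordinal.{0}) = Set.Icc ⊥ o := by ext x; simp
    rw [this]
    exact isCompact_Icc
  classical
  let ι : ↥(Set.Iic o) → G := fun x n => if x ≤ q n then 1 else 0
  have hι : Continuous ι := by
    refine continuous_pi fun n => ?_
    have hcl : IsClopen {x : ↥(Set.Iic o) | x ≤ q n} := by
      refine ⟨?_, ?_⟩
      · have : {x : ↥(Set.Iic o) | x ≤ q n} = Subtype.val ⁻¹' (Set.Iic ((q n : ↥(Set.Iic o)) : Ordinal.{0})) := by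
          ext x; rfl
        rw [this]
        exact isClosed_Iic.preimage continuous_subtype_val
      · have : {x : ↥(Set.Iic o) | x ≤ q n} =
            Subtype.val ⁻¹' (Set.Iio (Order.succ ((q n : ↥(Set.Iic o)) : Ordinal.{0}))) := by
          ext x
          simp only [Set.mem_ofPred_eq, Set.mem_preimage, Set.mem_Iio, Order.lt_succ_iff]
          rfl
        rw [this]
        exact isOpen_Iio.preimage continuous_subtype_val
    refine IsLocallyConstant.continuous ((IsLocallyConstant.iff_eventually_eq _).2 fun x => ?_)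
    by_cases hx : x ≤ q n
    · filter_upwards [hcl.isOpen.mem_nhds hx] with y hy
      have hy' : y ≤ q n := hy
      simp only [ι, hx, hy', if_true]
    · filter_upwards [hcl.compl.isOpen.mem_nhds hx] with y hy
      have hy' : ¬ y ≤ q n := hy
      simp only [ι, hx, hy', if_false]
  have hinj : Function.Injective ι := by
    intro x y hxy
    by_contra hne'
    rcases lt_or_gt_of_ne hne' with h | h
    · obtain ⟨n, hn⟩ := hq x
      have := congrFun hxy n
      simp only [ι, hn, le_refl, if_true] at this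
      rw [if_neg (not_le.2 h)] at this
      exact one_ne_zero this
    · obtain ⟨n, hn⟩ := hq y
      have := congrFun hxy n
      simp only [ι, hn, le_refl, if_true] at this
      rw [if_neg (not_le.2 h)] at this
      exact one_ne_zero this.symm
  have hemb : IsClosedEmbedding ι := hι.isClosedEmbedding hinj
  obtain ⟨f, hf1, -, hf3⟩ := PiNat.exists_retraction_subtype_of_isClosed
    (E := fun _ => ZMod 2) hemb.isClosed_range (Set.range_nonempty ι)
  let e : ↥(Set.Iic o) ≃ₜ Set.range ι := hemb.isEmbedding.toHomeomorph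
  refine ⟨ι, fun x => e.symm (f x), hι, e.symm.continuous.comp hf3, fun l => ?_⟩
  have h1 : f (ι l) = ⟨ι l, l, rfl⟩ := hf1 ⟨ι l, l, rfl⟩
  show e.symm (f (ι l)) = l
  rw [h1, Homeomorph.symm_apply_eq]
  rfl

theorem main :
    ∃ (T : (↥(Set.Iic (Ordinal.omega0.{0} ^ Ordinal.omega0.{0})) →ᵇ ℝ) →L[ℝ]
            (StoneCech ℕ × StoneCech ℕ →ᵇ ℝ))
      (P : (StoneCech ℕ × StoneCech ℕ →ᵇ ℝ) →L[ℝ]
            (↥(Set.Iic (Ordinal.omega0.{0} ^ Ordinal.omega0.{0})) →ᵇ ℝ)),
      P.comp T = ContinuousLinearMap.id ℝ _ := by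
  have ho : (Ordinal.omega0.{0} ^ Ordinal.omega0.{0}).card ≤ Cardinal.aleph0 := by
    refine (Ordinal.card_opow_le _ _).trans ?_
    simp
  obtain ⟨ι, r, hι, hr, hri⟩ := exists_embedding _ ho
  exact exists_complemented ι hι r hr hri

end Pool.Agent.Work.MP_997748_an
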